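import Pool.Agent.Helper10.DE.VP.VPGain
import Pool.Agent.Helper10.DE.CP.Emax

/-!
# DE IV.6  Exchanging patterns in `Cfg st` and `Cfg2 st`

`Same st F a b`: `x ↦ x + st (a x)` and `x ↦ x + st (b x)` are injective on `F` with the same image.
* `same_tr`: translations.
* `cfg_pswap`: if `ω ∈ Cfg st` has the pattern `a` on `F` and is changed to `b` on `F`, the map is
  unchanged off `F` and maps `F` bijectively onto the same set as before.
* `same_charge`: `∑_{x ∈ F} st (a x) = ∑_{y ∈ image} y - ∑_{x ∈ F} x`.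
* `vp_cfg`, `vp_cfg2`: `vp_inv` for the maximizers; for pairs `a, b : V d → A × A` with `Same` for
  both components (one component may be unchanged: `Same st F a a` needs injectivity of `a` on `F`;
  if it fails the cylinders are empty and the exchange is the identity on `Cfg2`; we ask for `Same`).
-/

noncomputable section

open MeasureTheory Filter Topology

namespace Helper15.DE

variable {d : ℕ} {A : Type}

private theorem mv_tr (st : A → V d) (a : V d → A) (v x : V d) :
    mv st (fun y => a (y - v)) (x + v) = mv st a x + v := by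
  unfold mv
  simp only [add_sub_cancel_right]
  abel

private theorem same_symm {st : A → V d} {F : Finset (V d)} {a b : V d → A}
    (h : Same st F a b) : Same st F b a := ⟨h.2.1, h.1, h.2.2.symm⟩

/-- Changing the pattern `a` on `F` to `b`. -/
private theorem cfg_replace (st : A → V d) (F : Finset (V d)) (a b : V d → A)
    (h : Same st F a b) (ω : V d → A) (hω : ω ∈ Cfg st) (ha : ∀ x ∈ F, ω x = a x)
    (ω' : V d → A) (hb : ∀ x ∈ F, ω' x = b x) (hn : ∀ x, x ∉ F → ω' x = ω x) :
    ω' ∈ Cfg st := by
  have hωb : Function.Bijective (mv st ω) := hω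
  have e1 : ∀ x ∈ F, mv st ω x = mv st a x := fun x hx => by unfold mv; rw [ha x hx]
  have e2 : ∀ x ∈ F, mv st ω' x = mv st b x := fun x hx => by unfold mv; rw [hb x hx]
  have e3 : ∀ x, x ∉ F → mv st ω' x = mv st ω x := fun x hx => by unfold mv; rw [hn x hx]
  -- every value of `ω'` on `F` is a value of `ω` on `F`
  have k1 : ∀ x ∈ F, ∃ z ∈ F, mv st ω z = mv st ω' x := by
    intro x hx
    have : mv st b x ∈ F.image (mv st a) := by
      rw [h.2.2]
      exact Finset.mem_image_of_mem _ hx
    obtain ⟨z, hz, hzx⟩ := Finset.mem_image.1 this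
    exact ⟨z, hz, by rw [e1 z hz, hzx, e2 x hx]⟩
  have k2 : ∀ x ∈ F, ∃ z ∈ F, mv st ω' z = mv st ω x := by
    intro x hx
    have : mv st a x ∈ F.image (mv st b) := by
      rw [← h.2.2]
      exact Finset.mem_image_of_mem _ hx
    obtain ⟨z, hz, hzx⟩ := Finset.mem_image.1 this
    exact ⟨z, hz, by rw [e2 z hz, hzx, e1 x hx]⟩
  change Function.Bijective (mv st ω')
  constructor
  · intro x y hxy
    by_cases hx : x ∈ F <;> by_cases hy : y ∈ F
    · rw [e2 x hx, e2 y hy] at hxy
      exact h.2.1 hx hy hxy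
    · exfalso
      obtain ⟨z, hz, hzx⟩ := k1 x hx
      rw [← hzx, e3 y hy] at hxy
      exact hy (hωb.1 hxy ▸ hz)
    · exfalso
      obtain ⟨z, hz, hzy⟩ := k1 y hy
      rw [← hzy, e3 x hx] at hxy
      exact hx (hωb.1 hxy ▸ hz)
    · rw [e3 x hx, e3 y hy] at hxy
      exact hωb.1 hxy
  · intro y
    obtain ⟨x, rfl⟩ := hωb.2 y
    by_cases hx : x ∈ F
    · obtain ⟨z, _, hzx⟩ := k2 x hx
      exact ⟨z, hzx⟩
    · exact ⟨x, e3 x hx⟩

theorem same_tr (st : A → V d) (F : Finset (V d)) (a b : V d → A) (h : Same st F a b)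
    (v : V d) : Same st (tr F v) (fun x => a (x - v)) (fun x => b (x - v)) := by
  have key : ∀ c : V d → A, Set.InjOn (mv st c) F →
      Set.InjOn (mv st (fun x => c (x - v))) (tr F v) := by
    intro c hc x hx y hy hxy
    have hx' : x ∈ tr F v := hx
    have hy' : y ∈ tr F v := hy
    unfold tr at hx' hy'
    obtain ⟨x0, hx0, rfl⟩ := Finset.mem_image.1 hx'
    obtain ⟨y0, hy0, rfl⟩ := Finset.mem_image.1 hy'
    rw [mv_tr, mv_tr] at hxy
    rw [hc hx0 hy0 (add_right_cancel hxy)]
  have im : ∀ c : V d → A, (tr F v).image (mv st (fun x => c (x - v))) =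
      (F.image (mv st c)).image (fun x => x + v) := by
    intro c
    unfold tr
    rw [Finset.image_image, Finset.image_image]
    apply Finset.image_congr
    intro x _
    exact mv_tr st c v x
  exact ⟨key a h.1, key b h.2.1, by rw [im a, im b, h.2.2]⟩

theorem cfg_pswap (st : A → V d) (F : Finset (V d)) (a b : V d → A) (h : Same st F a b)
    (ω : V d → A) (hω : ω ∈ Cfg st) : pswap F a b ω ∈ Cfg st := by
  unfold pswap
  split_ifs with h1 h2
  · exact cfg_replace st F a b h ω hω h1 _ (fun x hx => by simp only [if_pos hx])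
      (fun x hx => by simp only [if_neg hx])
  · exact cfg_replace st F b a (same_symm h) ω hω h2 _ (fun x hx => by simp only [if_pos hx])
      (fun x hx => by simp only [if_neg hx])
  · exact hω

theorem cfg2_pswap (st : A → V d) (F : Finset (V d)) (a b : V d → A × A)
    (h : Same st F (c1 a) (c1 b)) (h' : Same st F (c2 a) (c2 b))
    (ω : V d → A × A) (hω : ω ∈ Cfg2 st) : pswap F a b ω ∈ Cfg2 st := by
  unfold pswap
  split_ifs with h1 h2
  · exact ⟨cfg_replace st F (c1 a) (c1 b) h (c1 ω) hω.1
        (fun x hx => by unfold c1; rw [h1 x hx]) _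
        (fun x hx => by unfold c1; simp only [if_pos hx])
        (fun x hx => by unfold c1; simp only [if_neg hx]),
      cfg_replace st F (c2 a) (c2 b) h' (c2 ω) hω.2
        (fun x hx => by unfold c2; rw [h1 x hx]) _
        (fun x hx => by unfold c2; simp only [if_pos hx])
        (fun x hx => by unfold c2; simp only [if_neg hx])⟩
  · exact ⟨cfg_replace st F (c1 b) (c1 a) (same_symm h) (c1 ω) hω.1
        (fun x hx => by unfold c1; rw [h2 x hx]) _
        (fun x hx => by unfold c1; simp only [if_pos hx])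
        (fun x hx => by unfold c1; simp only [if_neg hx]),
      cfg_replace st F (c2 b) (c2 a) (same_symm h') (c2 ω) hω.2
        (fun x hx => by unfold c2; rw [h2 x hx]) _
        (fun x hx => by unfold c2; simp only [if_pos hx])
        (fun x hx => by unfold c2; simp only [if_neg hx])⟩
  · exact hω

theorem same_charge (st : A → V d) (F : Finset (V d)) (a b : V d → A) (h : Same st F a b)
    (i : Fin d) : ∑ x ∈ F, chg st (a x) i = ∑ x ∈ F, chg st (b x) i := by
  have key : ∀ c : V d → A, Set.InjOn (mv st c) F → ∑ x ∈ F, chg st (c x) i =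
      ∑ y ∈ F.image (mv st c), ((y i : ℤ) : ℝ) - ∑ x ∈ F, ((x i : ℤ) : ℝ) := by
    intro c hc
    rw [Finset.sum_image hc, ← Finset.sum_sub_distrib]
    apply Finset.sum_congr rfl
    intro x _
    unfold chg mv
    rw [Pi.add_apply]
    push_cast
    ring
  rw [key a h.1, key b h.2.1, h.2.2]

variable [Fintype A] [MeasurableSpace A] [MeasurableSingletonClass A]

theorem vp_cfg (st : A → V d) (m : Measure (V d → A)) (hm : Inv (Cfg st) m)
    (hmax : hent m = Emax st (mean (chg st) m)) (F : Finset (V d)) (a b : V d → A)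
    (h : Same st F a b) : m.map (pswap F a b) = m := by
  refine vp_inv (Cfg st) (closed_cfg st) (shift_cfg st) (chg st) m hm ?_ F a b ?_ ?_
  · intro ν hν hmean
    rw [hmax, ← hmean]
    exact le_emax st ν hν
  · intro v ω hω
    exact cfg_pswap st _ _ _ (same_tr st F a b h v) ω hω
  · exact fun i => same_charge st F a b h i

theorem vp_cfg2 (st : A → V d) (m : Measure (V d → A × A)) (hm : Inv (Cfg2 st) m)
    (hmax : ∀ ν, Inv (Cfg2 st) ν → mean (chg2 st) ν = mean (chg2 st) m → hent ν ≤ hent m)
    (F : Finset (V d)) (a b : V d → A × A)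
    (h : Same st F (c1 a) (c1 b)) (h' : Same st F (c2 a) (c2 b)) :
    m.map (pswap F a b) = m := by
  refine vp_inv (Cfg2 st) (closed_cfg2 st) (shift_cfg2 st) (chg2 st) m hm hmax F a b ?_ ?_
  · intro v ω hω
    exact cfg2_pswap st _ _ _ (same_tr st F (c1 a) (c1 b) h v)
      (same_tr st F (c2 a) (c2 b) h' v) ω hω
  · intro i
    have e1 := same_charge st F (c1 a) (c1 b) h i
    have e2 := same_charge st F (c2 a) (c2 b) h' i
    have e3 : ∀ c : V d → A × A, ∑ x ∈ F, chg2 st (c x) i =
        ∑ x ∈ F, chg st (c1 c x) i + ∑ x ∈ F, chg st (c2 c x) i := by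
      intro c
      rw [← Finset.sum_add_distrib]
      rfl
    rw [e3 a, e3 b, e1, e2]

end Helper15.DE
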