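import Mathlib

/-!
# DE IV.1  The entropy gain of averaging over an involution (vectors)

`η = Real.negMulLog`.
(1) For `|t| ≤ 1`: `(1 + t) log (1 + t) + (1 - t) log (1 - t) ≥ t²` (both sides `0` at `t = 0`,
derivative `log (1 + t) - log (1 - t) ≥ 2 t` on `[0, 1)`, cf. `Real.hasSum_log_sub_log_of_abs_lt_one`;
`0 log 0 = 0` at `t = 1`, continuity; even function).
(2) For `u, v ≥ 0`, with `w = (u + v)/2 > 0`, `u = w (1 + t)`, `v = w (1 - t)`:
`2 η(w) - η(u) - η(v) = w ((1 + t) log (1 + t) + (1 - t) log (1 - t)) ≥ w t² = (u - v)²/(2 (u + v))`.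
(3) `∑ η((p a + p (R a))/2) - ∑ η(p a) = (1/2) ∑ [2 η((p a + p (R a))/2) - η(p a) - η(p (R a))]
 ≥ (1/2) ∑ (p a - p (R a))²/(2 (p a + p (R a))) ≥ (1/2) (∑ |p a - p (R a)|)²/(2 ∑ (p a + p (R a)))
 = (∑ |p a - p (R a)|)²/8` (Cauchy-Schwarz / `Finset.sum_div_pow...` Sedrakyan, terms with
`p a + p (R a) = 0` vanish), and `∑ |p a - p (R a)| ≥ |∑_{a ∈ E} (p a - p (R a))|`.
-/

noncomputable section

namespace Helper15.DE

theorem log_ineq (t : ℝ) (h0 : -1 ≤ t) (h1 : t ≤ 1) :
    t ^ 2 ≤ (1 + t) * Real.log (1 + t) + (1 - t) * Real.log (1 - t) := by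
  have key : ∀ t : ℝ, 0 ≤ t → t ≤ 1 →
      t ^ 2 ≤ (1 + t) * Real.log (1 + t) + (1 - t) * Real.log (1 - t) := by
    intro t h0 h1
    set f : ℝ → ℝ := fun t => (1 + t) * Real.log (1 + t) + (1 - t) * Real.log (1 - t) - t ^ 2
      with hf
    have hc1 : Continuous fun t : ℝ => (1 + t) * Real.log (1 + t) :=
      Real.continuous_mul_log.comp (continuous_const.add continuous_id)
    have hc2 : Continuous fun t : ℝ => (1 - t) * Real.log (1 - t) :=
      Real.continuous_mul_log.comp (continuous_const.sub continuous_id)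
    have hcont : Continuous f := (hc1.add hc2).sub (continuous_id.pow 2)
    have hder : ∀ x ∈ Set.Ioo (0 : ℝ) 1,
        HasDerivAt f (Real.log (1 + x) - Real.log (1 - x) - 2 * x) x := by
      intro x hx
      have a1 : HasDerivAt (fun t : ℝ => 1 + t) 1 x := (hasDerivAt_id x).const_add 1
      have a2 : HasDerivAt (fun t : ℝ => 1 - t) (-1) x := (hasDerivAt_id x).const_sub 1
      have n1 : (1 + x) ≠ 0 := by linarith [hx.1]
      have n2 : (1 - x) ≠ 0 := by linarith [hx.2]
      have b1 := a1.mul (a1.log n1)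
      have b2 := a2.mul (a2.log n2)
      have b3 := (hasDerivAt_id x).pow 2
      have b := (b1.add b2).sub b3
      refine HasDerivAt.congr_deriv b ?_
      simp only [id_eq]
      field_simp
      ring
    have hmono : MonotoneOn f (Set.Icc 0 1) := by
      refine monotoneOn_of_deriv_nonneg (convex_Icc 0 1) hcont.continuousOn ?_ ?_
      · rw [interior_Icc]
        exact fun x hx => (hder x hx).differentiableAt.differentiableWithinAt
      · rw [interior_Icc]
        intro x hx
        rw [(hder x hx).deriv]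
        have hs := Real.hasSum_log_sub_log_of_abs_lt_one (x := x)
          (by rw [abs_of_pos hx.1]; exact hx.2)
        have hle := le_hasSum hs 0 (fun k _ => by
          have : 0 ≤ x ^ (2 * k + 1) := pow_nonneg hx.1.le _
          positivity)
        norm_num at hle
        linarith
    have := hmono ⟨le_refl 0, zero_le_one⟩ ⟨h0, h1⟩ h0
    simp only [hf] at this
    norm_num at this
    linarith
  rcases le_total 0 t with ht | ht
  · exact key t ht h1
  · have := key (-t) (by linarith) (by linarith)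
    rw [neg_sq, ← sub_eq_add_neg, sub_neg_eq_add] at this
    linarith

theorem gain_two (u v : ℝ) (hu : 0 ≤ u) (hv : 0 ≤ v) :
    (u - v) ^ 2 / (2 * (u + v)) ≤
      2 * Real.negMulLog ((u + v) / 2) - Real.negMulLog u - Real.negMulLog v := by
  rcases eq_or_lt_of_le (add_nonneg hu hv) with h | h
  · have hu0 : u = 0 := by linarith
    have hv0 : v = 0 := by linarith
    subst hu0 hv0
    simp
  · set w := (u + v) / 2 with hw
    set t := (u - v) / (u + v) with ht
    have hne : u + v ≠ 0 := h.ne'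
    have e1 : u = w * (1 + t) := by rw [hw, ht]; field_simp; ring
    have e2 : v = w * (1 - t) := by rw [hw, ht]; field_simp; ring
    have h0 : -1 ≤ t := by rw [ht, le_div_iff₀ h]; linarith
    have h1 : t ≤ 1 := by rw [ht, div_le_iff₀ h]; linarith
    have hl := log_ineq t h0 h1
    have g1 : Real.negMulLog u = (1 + t) * Real.negMulLog w + w * Real.negMulLog (1 + t) := by
      rw [e1, Real.negMulLog_mul]
    have g2 : Real.negMulLog v = (1 - t) * Real.negMulLog w + w * Real.negMulLog (1 - t) := by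
      rw [e2, Real.negMulLog_mul]
    have g3 : (u - v) ^ 2 / (2 * (u + v)) = w * t ^ 2 := by rw [hw, ht]; field_simp
    rw [g1, g2, g3]
    have hwpos : 0 < w := by rw [hw]; linarith
    have hm := mul_le_mul_of_nonneg_left hl hwpos.le
    simp only [Real.negMulLog]
    nlinarith [hm]

theorem gain_vec {α : Type*} [Fintype α] (R : α → α) (hR : ∀ a, R (R a) = a) (p : α → ℝ)
    (hp : ∀ a, 0 ≤ p a) (hp1 : ∑ a, p a = 1) (E : Finset α) :
    ∑ a, Real.negMulLog (p a) + (∑ a ∈ E, (p a - p (R a))) ^ 2 / 8 ≤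
      ∑ a, Real.negMulLog ((p a + p (R a)) / 2) := by
  have hbij : Function.Bijective R :=
    ⟨fun a b h => by rw [← hR a, h, hR b], fun a => ⟨R a, hR a⟩⟩
  have hsumR : ∀ g : α → ℝ, ∑ a, g (R a) = ∑ a, g a := fun g => hbij.sum_comp g
  set r : α → ℝ := fun a => |p a - p (R a)| with hr
  set f : α → ℝ := fun a => p a + p (R a) with hf
  set g : α → ℝ := fun a => (p a - p (R a)) ^ 2 / (p a + p (R a)) with hg
  have hfn : ∀ a ∈ Finset.univ, 0 ≤ f a := fun a _ => add_nonneg (hp a) (hp (R a))
  have hgn : ∀ a ∈ Finset.univ, 0 ≤ g a := fun a _ =>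
    div_nonneg (sq_nonneg _) (add_nonneg (hp a) (hp (R a)))
  have hcs : (∑ a, r a) ^ 2 ≤ (∑ a, f a) * ∑ a, g a := by
    refine Finset.sum_sq_le_sum_mul_sum_of_sq_eq_mul Finset.univ hfn hgn ?_
    intro a _
    simp only [hr, hf, hg, sq_abs]
    by_cases h : p a + p (R a) = 0
    · have h1 : p a = 0 := by linarith [hp a, hp (R a)]
      have h2 : p (R a) = 0 := by linarith [hp a, hp (R a)]
      rw [h1, h2]; simp
    · field_simp
  have hf2 : ∑ a, f a = 2 := by
    simp only [hf]
    rw [Finset.sum_add_distrib, hsumR p, hp1]; norm_num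
  rw [hf2] at hcs
  have hterm : ∀ a ∈ Finset.univ, g a / 2 ≤ 2 * Real.negMulLog ((p a + p (R a)) / 2) -
      Real.negMulLog (p a) - Real.negMulLog (p (R a)) := by
    intro a _
    have := gain_two (p a) (p (R a)) (hp a) (hp (R a))
    have e : (p a - p (R a)) ^ 2 / (2 * (p a + p (R a))) = g a / 2 := by
      simp only [hg]
      rw [div_div, mul_comm 2]
    rw [e] at this
    exact this
  have hsum := Finset.sum_le_sum hterm
  rw [← Finset.sum_div] at hsum
  rw [Finset.sum_sub_distrib, Finset.sum_sub_distrib,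
    hsumR (fun a => Real.negMulLog (p a)), ← Finset.mul_sum] at hsum
  have hE : (∑ a ∈ E, (p a - p (R a))) ^ 2 ≤ (∑ a, r a) ^ 2 := by
    rw [← sq_abs (∑ a ∈ E, (p a - p (R a)))]
    refine pow_le_pow_left₀ (abs_nonneg _) ?_ 2
    refine (Finset.abs_sum_le_sum_abs _ _).trans ?_
    exact Finset.sum_le_sum_of_subset_of_nonneg (Finset.subset_univ E)
      (fun a _ _ => abs_nonneg _)
  linarith

end Helper15.DE
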