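import Pool.Agent.Helper10.DE.VP.SwapGain
import Pool.Agent.Helper10.DE.CP.Closed

/-!
# DE IV.3  Simultaneous exchanges in the windows `F + K z`

Here: `T z ω = pswap (F + K z) (a shifted) (b shifted) ω`, i.e. with
`shiftP z a = fun x => a (x - K z)`, window `F.image (· + K z)`.  `F ⊆ box d K`, so the windows are
pairwise disjoint, inside the cells `K z + box d K`.
* `sw_insert`: if `κ z = false`, then switching `κ z` on is applying `T z` afterwards.
* `sw_finite`: if `κ` has finite support, `sw K F a b κ` is a finite composition of `T z`; hence if `C`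
  is closed under all `T z`, it is closed under `sw` with finite support; `sw_mem`: for arbitrary
  `κ` if `C` is closed: if `ω' = sw K F a b κ ω ∉ C` there is a finite set `G` such that no
  configuration equal to `ω'` on `G` is in `C`, but `sw K F a b κ' ω` with
  `κ' = κ` on the finitely many cells meeting `G`, `false` elsewhere, equals `ω'` on `G` (the value of
  `sw κ ω` at `x` depends only on `κ (cell K x)` and `ω`).
* `sw_shift`: `sw K F a b κ (shift (K u) ω) = shift (K u) (sw K F a b (κ (· - u)) ω)`
  (`cell K (x + K u) = cell K x + u`).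
* `sw_charge`: in each cell at most the window `F + K z` is changed, from `a` to `b` or back, and
  `∑_{x ∈ F} c (a x) = ∑_{x ∈ F} c (b x)`; stated for the cell `z = 0`.
* `measurable_sw`: joint measurability (every coordinate depends on finitely many coordinates).
-/

noncomputable section

open MeasureTheory Filter Topology

namespace Helper15.DE

variable {d : ℕ} {A : Type}

/-- The shifted window. -/
def win (K : ℕ) (F : Finset (V d)) (z : V d) : Finset (V d) := F.image fun x => x + (K : ℤ) • z

/-- The shifted pattern. -/
def pat (K : ℕ) (a : V d → A) (z : V d) : V d → A := fun x => a (x - (K : ℤ) • z)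

theorem cell_add (K : ℕ) (hK : 1 ≤ K) (x u : V d) : cell K (x + (K : ℤ) • u) = cell K x + u := by
  funext i
  have hK' : (K : ℤ) ≠ 0 := by exact_mod_cast (Nat.one_le_iff_ne_zero.mp hK)
  simp only [cell, Pi.add_apply, Pi.smul_apply, smul_eq_mul]
  rw [Int.add_mul_ediv_left _ _ hK']

theorem cell_box (K : ℕ) (x : V d) (hx : x ∈ box d K) : cell K x = 0 := by
  funext i
  have h := (Fintype.mem_piFinset.mp hx) i
  rw [Finset.mem_Ico] at h
  simp only [cell, Pi.zero_apply]
  exact Int.ediv_eq_zero_of_lt h.1 h.2

theorem cell_win (K : ℕ) (hK : 1 ≤ K) (F : Finset (V d)) (hF : F ⊆ box d K) (z y : V d)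
    (hy : y ∈ F) : cell K (y + (K : ℤ) • z) = z := by
  rw [cell_add K hK, cell_box K y (hF hy), zero_add]

theorem mem_win_iff (K : ℕ) (F : Finset (V d)) (z x : V d) :
    x ∈ win K F z ↔ x - (K : ℤ) • z ∈ F := by
  constructor
  · intro h
    obtain ⟨y, hy, rfl⟩ := Finset.mem_image.mp h
    simpa using hy
  · intro h
    exact Finset.mem_image.mpr ⟨_, h, by simp⟩

theorem sw_false (K : ℕ) (F : Finset (V d)) (a b : V d → A) (ω : V d → A) :
    sw K F a b (fun _ => false) ω = ω := by
  funext x
  simp [sw]

theorem sw_local (K : ℕ) (F : Finset (V d)) (a b : V d → A) (κ κ' : V d → Bool) (ω : V d → A)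
    (x : V d) (h : κ (cell K x) = κ' (cell K x)) :
    sw K F a b κ ω x = sw K F a b κ' ω x := by
  simp only [sw, h]

theorem sw_off (K : ℕ) (F : Finset (V d)) (a b : V d → A) (κ : V d → Bool) (ω : V d → A)
    (x : V d) (h : κ (cell K x) = false) : sw K F a b κ ω x = ω x := by
  simp [sw, h]

theorem sw_insert (K : ℕ) (hK : 1 ≤ K) (F : Finset (V d)) (hF : F ⊆ box d K) (a b : V d → A)
    (κ : V d → Bool) (z : V d) (hz : κ z = false) (ω : V d → A) :
    sw K F a b (Function.update κ z true) ω =
      pswap (win K F z) (pat K a z) (pat K b z) (sw K F a b κ ω) := by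
  classical
  have key : ∀ p : V d → A, (∀ x ∈ win K F z, sw K F a b κ ω x = pat K p z x) ↔
      ∀ y ∈ F, ω (y + (K : ℤ) • z) = p y := by
    intro p
    constructor
    · intro h y hy
      have h1 := h (y + (K : ℤ) • z) (Finset.mem_image_of_mem _ hy)
      rw [sw_off K F a b κ ω _ (by rw [cell_win K hK F hF z y hy]; exact hz)] at h1
      simpa [pat] using h1
    · intro h x hx
      obtain ⟨y, hy, rfl⟩ := Finset.mem_image.mp hx
      rw [sw_off K F a b κ ω _ (by rw [cell_win K hK F hF z y hy]; exact hz), h y hy]
      simp [pat]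
  funext x
  by_cases hx : cell K x = z
  · have hoff : sw K F a b κ ω x = ω x := sw_off K F a b κ ω x (by rw [hx]; exact hz)
    have e1 : sw K F a b (Function.update κ z true) ω x =
        if x - (K : ℤ) • z ∈ F then
          (if ∀ y ∈ F, ω (y + (K : ℤ) • z) = a y then b (x - (K : ℤ) • z)
            else if ∀ y ∈ F, ω (y + (K : ℤ) • z) = b y then a (x - (K : ℤ) • z)
            else ω x)
        else ω x := by
      simp only [sw, hx, Function.update_self, true_and]
    rw [e1]
    unfold pswap
    by_cases hm : x - (K : ℤ) • z ∈ F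
    · have hm' : x ∈ win K F z := (mem_win_iff K F z x).mpr hm
      rw [if_pos hm]
      by_cases ha : ∀ y ∈ F, ω (y + (K : ℤ) • z) = a y
      · rw [if_pos ha, if_pos ((key a).mpr ha)]
        simp only [if_pos hm', pat]
      · rw [if_neg ha, if_neg fun h => ha ((key a).mp h)]
        by_cases hb : ∀ y ∈ F, ω (y + (K : ℤ) • z) = b y
        · rw [if_pos hb, if_pos ((key b).mpr hb)]
          simp only [if_pos hm', pat]
        · rw [if_neg hb, if_neg fun h => hb ((key b).mp h)]
          exact hoff.symm
    · have hm' : x ∉ win K F z := fun h => hm ((mem_win_iff K F z x).mp h)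
      rw [if_neg hm]
      split_ifs
      · simp only [if_neg hm', hoff]
      · simp only [if_neg hm', hoff]
      · exact hoff.symm
  · have hm' : x ∉ win K F z := by
      intro h
      obtain ⟨y, hy, rfl⟩ := Finset.mem_image.mp h
      exact hx (cell_win K hK F hF z y hy)
    have e1 : sw K F a b (Function.update κ z true) ω x = sw K F a b κ ω x :=
      sw_local K F a b _ _ ω x (Function.update_of_ne hx _ _)
    rw [e1]
    unfold pswap
    split_ifs
    · simp only [if_neg hm']
    · simp only [if_neg hm']
    · rfl

theorem sw_mem (K : ℕ) (hK : 1 ≤ K) (F : Finset (V d)) (hF : F ⊆ box d K) (a b : V d → A)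
    (C : Set (V d → A)) (hC : ClosedC C)
    (hcl : ∀ z, ∀ ω ∈ C, pswap (win K F z) (pat K a z) (pat K b z) ω ∈ C)
    (κ : V d → Bool) (ω : V d → A) (hω : ω ∈ C) : sw K F a b κ ω ∈ C := by
  classical
  have hfin : ∀ S : Finset (V d), sw K F a b (fun z => decide (z ∈ S) && κ z) ω ∈ C := by
    intro S
    induction S using Finset.induction_on with
    | empty =>
      have : (fun z : V d => decide (z ∈ (∅ : Finset (V d))) && κ z) = fun _ => false := by
        funext z
        simp
      rw [this, sw_false]
      exact hω
    | insert z S hz ih =>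
      by_cases hk : κ z = true
      · have h1 : (fun y : V d => decide (y ∈ insert z S) && κ y) =
            Function.update (fun y : V d => decide (y ∈ S) && κ y) z true := by
          funext y
          by_cases hy : y = z
          · subst hy
            simp [hk]
          · rw [Function.update_of_ne hy]
            simp [hy]
        rw [h1, sw_insert K hK F hF a b _ z (by simp [hz]) ω]
        exact hcl z _ ih
      · have h1 : (fun y : V d => decide (y ∈ insert z S) && κ y) =
            fun y : V d => decide (y ∈ S) && κ y := by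
          funext y
          by_cases hy : y = z
          · subst hy
            simp [hk, hz]
          · simp [hy]
        rw [h1]
        exact ih
  by_contra hcon
  obtain ⟨G, hG⟩ := hC _ hcon
  refine hG _ ?_ (hfin (G.image (cell K)))
  intro x hx
  apply sw_local
  have : cell K x ∈ G.image (cell K) := Finset.mem_image_of_mem _ hx
  simp [this]

theorem sw_shift (K : ℕ) (hK : 1 ≤ K) (F : Finset (V d)) (a b : V d → A)
    (κ : V d → Bool) (u : V d) (ω : V d → A) :
    sw K F a b κ (shift ((K : ℤ) • u) ω) =
      shift ((K : ℤ) • u) (sw K F a b (fun z => κ (z - u)) ω) := by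
  classical
  funext x
  have e1 : ∀ y : V d, y + (K : ℤ) • (cell K x + u) = y + (K : ℤ) • cell K x + (K : ℤ) • u := by
    intro y
    rw [smul_add, add_assoc]
  have e2 : x + (K : ℤ) • u - (K : ℤ) • (cell K x + u) = x - (K : ℤ) • cell K x := by
    rw [smul_add]
    abel
  have e3 : ∀ c : V d, c = cell K x + u →
      sw K F a b κ (shift ((K : ℤ) • u) ω) x =
        (if κ (c - u) = true ∧ x + (K : ℤ) • u - (K : ℤ) • c ∈ F then
          (if ∀ y ∈ F, ω (y + (K : ℤ) • c) = a y then b (x + (K : ℤ) • u - (K : ℤ) • c)
           else if ∀ y ∈ F, ω (y + (K : ℤ) • c) = b y then a (x + (K : ℤ) • u - (K : ℤ) • c)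
           else ω (x + (K : ℤ) • u))
        else ω (x + (K : ℤ) • u)) := by
    intro c hc
    subst hc
    unfold sw shift
    simp only [add_sub_cancel_right, e1, e2]
  exact e3 _ (cell_add K hK x u)

theorem sw_charge (K : ℕ) (hK : 1 ≤ K) (F : Finset (V d)) (hF : F ⊆ box d K) (a b : V d → A)
    {k : ℕ} (c : A → Fin k → ℝ) (i : Fin k) (hc : ∑ x ∈ F, c (a x) i = ∑ x ∈ F, c (b x) i)
    (κ : V d → Bool) (ω : V d → A) :
    ∑ x ∈ box d K, c (sw K F a b κ ω x) i = ∑ x ∈ box d K, c (ω x) i := by
  classical
  by_cases hk : κ 0 = true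
  · rw [← Finset.sum_sdiff hF, ← Finset.sum_sdiff hF]
    congr 1
    · apply Finset.sum_congr rfl
      intro x hx
      rw [Finset.mem_sdiff] at hx
      have hcx := cell_box K x hx.1
      simp [sw, hcx, hk, hx.2]
    · have e : ∀ x ∈ F, sw K F a b κ ω x =
          if ∀ y ∈ F, ω y = a y then b x else if ∀ y ∈ F, ω y = b y then a x else ω x := by
        intro x hx
        have hcx := cell_box K x (hF hx)
        simp only [sw, hcx, hk, smul_zero, sub_zero, add_zero, hx, and_self, if_true]
      rw [Finset.sum_congr rfl fun x hx => by rw [e x hx]]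
      by_cases ha : ∀ y ∈ F, ω y = a y
      · simp only [if_pos ha]
        rw [← hc]
        exact Finset.sum_congr rfl fun x hx => by rw [ha x hx]
      · simp only [if_neg ha]
        by_cases hb : ∀ y ∈ F, ω y = b y
        · simp only [if_pos hb]
          rw [hc]
          exact Finset.sum_congr rfl fun x hx => by rw [hb x hx]
        · simp only [if_neg hb]
  · apply Finset.sum_congr rfl
    intro x hx
    rw [sw_off K F a b κ ω x (by rw [cell_box K x hx]; simpa using hk)]

theorem measurable_sw [Fintype A] [MeasurableSpace A] [MeasurableSingletonClass A]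
    (K : ℕ) (F : Finset (V d)) (a b : V d → A) :
    Measurable fun p : (V d → A) × (V d → Bool) => sw K F a b p.2 p.1 := by
  classical
  rw [measurable_pi_iff]
  intro x
  have hcoord : ∀ y : V d, Measurable fun p : (V d → A) × (V d → Bool) => p.1 y :=
    fun y => (measurable_pi_apply y).comp measurable_fst
  have hset : ∀ (w p0 : V d → A), MeasurableSet
      {p : (V d → A) × (V d → Bool) | ∀ y ∈ F, p.1 (y + (K : ℤ) • cell K x) = p0 y} := by
    intro w p0
    have : {p : (V d → A) × (V d → Bool) | ∀ y ∈ F, p.1 (y + (K : ℤ) • cell K x) = p0 y} =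
        ⋂ y ∈ F, {p | p.1 (y + (K : ℤ) • cell K x) = p0 y} := by
      ext p
      simp
    rw [this]
    refine Finset.measurableSet_biInter _ fun y _ => ?_
    exact (hcoord _) (measurableSet_singleton (p0 y))
  unfold sw
  refine Measurable.ite ?_ (Measurable.ite (hset a a) measurable_const
    (Measurable.ite (hset b b) measurable_const (hcoord x))) (hcoord x)
  by_cases hm : x - (K : ℤ) • cell K x ∈ F
  · have : {p : (V d → A) × (V d → Bool) | p.2 (cell K x) = true ∧
        x - (K : ℤ) • cell K x ∈ F} = {p | p.2 (cell K x) = true} := by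
      ext p
      simp only [Set.mem_ofPred_eq, hm, and_true]
    rw [this]
    have hm2 : Measurable fun p : (V d → A) × (V d → Bool) => p.2 (cell K x) :=
      (measurable_pi_apply (cell K x)).comp measurable_snd
    exact hm2 (measurableSet_singleton true)
  · have : {p : (V d → A) × (V d → Bool) | p.2 (cell K x) = true ∧
        x - (K : ℤ) • cell K x ∈ F} = ∅ := by
      ext p
      simp only [Set.mem_ofPred_eq, hm, and_false, Set.mem_empty_iff_false]
    rw [this]
    exact MeasurableSet.empty

end Helper15.DE
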