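import Pool.Agent.Helper10.DE.VP.Sw
import Pool.Agent.Helper10.DE.ET.Avg
import Pool.Agent.Helper15.DE.Coins

/-!
# DE IV.4  The law after independent fair exchanges in all windows `F + K z`

`swm K F a b m` is the law of `sw K F a b κ ω` for `ω` with law `m` and `κ` independent fair coins.
* `swm_shift`: `sw_shift`, invariance of `m`, and of `coins d` under translations of the index.
* `swm_HF`: for `Z ⊆ V d` finite let `m_Z = 2^(-|Z|) ∑_{S ⊆ Z} m.map (sw K F a b 1_S)`.
  (i) `HF m_Z G ≥ HF m G + |Z| δ`, `δ = (m(ω|F = a) - m(ω|F = b))²/8`, if `G` contains all windows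
  `F + K z`, `z ∈ Z`: induction on `Z`: `m_{Z ∪ {z}} = mix (1/2) m_Z (m_Z.map (T z))` (`sw_insert`), apply
  `swap_gain`, with `m_Z (ω|(F + K z) = a shifted) = m (ω|F = a)`: the windows of `Z` are disjoint from
  `F + K z` so `sw 1_S ω = ω` there (`sw_local`), and `m` is shift invariant.
  (ii) the law of `ω|G` is the same under `swm K F a b m` and `m_Z` if all cells of points of `G` are
  in `Z` (`sw_local`; the restriction of the coins to `Z` is uniform on `Z → Bool`:
  `Measure.infinitePi_map_restrict`, or `infinitePi_pi`).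
  For `G = box d (n K)`, `Z = box d n`: `cell K x ∈ box d n` iff `x ∈ box d (n K)`.
-/

noncomputable section

open MeasureTheory Filter Topology

namespace Helper15.DE

variable {d : ℕ} {A : Type} [Fintype A] [MeasurableSpace A] [MeasurableSingletonClass A]

/-- The law after fair exchanges. -/
def swm (K : ℕ) (F : Finset (V d)) (a b : V d → A) (m : Measure (V d → A)) :
    Measure (V d → A) :=
  (m.prod (coins d)).map fun p => sw K F a b p.2 p.1

namespace SwLawAux

omit [Fintype A] [MeasurableSpace A] [MeasurableSingletonClass A] in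
/-- Coins outside `Z` are switched off. -/
def cut (Z : Finset (V d)) (κ : V d → Bool) : V d → Bool := fun z => if z ∈ Z then κ z else false

theorem measurable_cut (Z : Finset (V d)) : Measurable (cut Z) := by
  refine measurable_pi_iff.mpr fun z => ?_
  unfold cut
  by_cases h : z ∈ Z
  · simp only [h, if_true]
    exact measurable_pi_apply z
  · simp only [h, if_false]
    exact measurable_const

/-- The map with the coins outside `Z` switched off. -/
def fZ (K : ℕ) (F : Finset (V d)) (a b : V d → A) (Z : Finset (V d)) :
    (V d → A) × (V d → Bool) → (V d → A) := fun p => sw K F a b (cut Z p.2) p.1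

theorem measurable_fZ (K : ℕ) (F : Finset (V d)) (a b : V d → A) (Z : Finset (V d)) :
    Measurable (fZ K F a b Z) := by
  have h : Measurable fun p : (V d → A) × (V d → Bool) => (p.1, cut Z p.2) :=
    measurable_fst.prodMk ((measurable_cut Z).comp measurable_snd)
  exact (measurable_sw K F a b).comp h

/-- The law with the coins outside `Z` switched off. -/
def mZ (K : ℕ) (F : Finset (V d)) (a b : V d → A) (m : Measure (V d → A)) (Z : Finset (V d)) :
    Measure (V d → A) := (m.prod (coins d)).map (fZ K F a b Z)

theorem mZ_prob (K : ℕ) (F : Finset (V d)) (a b : V d → A) (m : Measure (V d → A))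
    [IsProbabilityMeasure m] (Z : Finset (V d)) : IsProbabilityMeasure (mZ K F a b m Z) :=
  Measure.isProbabilityMeasure_map (measurable_fZ K F a b Z).aemeasurable

theorem mZ_empty (K : ℕ) (F : Finset (V d)) (a b : V d → A) (m : Measure (V d → A))
    [IsProbabilityMeasure m] : mZ K F a b m ∅ = m := by
  have h : fZ K F a b (∅ : Finset (V d)) = Prod.fst := by
    funext p
    have h1 : cut (∅ : Finset (V d)) p.2 = fun _ => false := by
      funext z
      simp [cut]
    unfold fZ
    rw [h1, sw_false]
  unfold mZ
  rw [h]
  exact measurePreserving_fst.map_eq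

omit [Fintype A] [MeasurableSpace A] [MeasurableSingletonClass A] in
theorem measurable_flip (z : V d) :
    Measurable fun κ : V d → Bool => Function.update κ z (!κ z) := by
  refine measurable_pi_iff.mpr fun y => ?_
  by_cases h : y = z
  · subst h
    simp only [Function.update_self]
    have h1 : Measurable fun κ : V d → Bool => κ y := measurable_pi_apply y
    have h2 : Measurable fun b : Bool => !b := measurable_of_countable _
    exact h2.comp h1
  · simp only [Function.update_of_ne h]
    exact measurable_pi_apply y

/-- Flipping one coin preserves the product law. -/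
theorem flip_prod (m : Measure (V d → A)) [IsProbabilityMeasure m] (z : V d) :
    (m.prod (coins d)).map (Prod.map id fun κ : V d → Bool => Function.update κ z (!κ z)) =
      m.prod (coins d) := by
  rw [← Measure.map_prod_map _ _ measurable_id (measurable_flip z), Measure.map_id, coins_flip]

/-- A fair coin is independent of the sets not depending on it. -/
theorem half (m : Measure (V d → A)) [IsProbabilityMeasure m] (z : V d)
    (B : Set ((V d → A) × (V d → Bool))) (hB : MeasurableSet B)
    (hz : ∀ p : (V d → A) × (V d → Bool), (p.1, Function.update p.2 z (!p.2 z)) ∈ B ↔ p ∈ B)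
    (c : Bool) :
    (m.prod (coins d)).real ({p | p.2 z = c} ∩ B) = 1 / 2 * (m.prod (coins d)).real B := by
  set P := m.prod (coins d) with hP
  have hm1 : ∀ c : Bool, MeasurableSet {p : (V d → A) × (V d → Bool) | p.2 z = c} := fun c =>
    have h : Measurable fun p : (V d → A) × (V d → Bool) => p.2 z :=
      (measurable_pi_apply z).comp measurable_snd
    h (measurableSet_singleton c)
  have hmf : Measurable (Prod.map id fun κ : V d → Bool => Function.update κ z (!κ z) :
      (V d → A) × (V d → Bool) → (V d → A) × (V d → Bool)) :=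
    measurable_id.prodMap (measurable_flip z)
  have hflip : ∀ c : Bool, P.real ({p | p.2 z = c} ∩ B) = P.real ({p | p.2 z = !c} ∩ B) := by
    intro c
    conv_lhs => rw [hP, ← flip_prod m z]
    rw [Measure.real, Measure.map_apply hmf ((hm1 c).inter hB), Measure.real]
    congr 2
    ext p
    have h1 := hz p
    simp only [Set.mem_preimage, Set.mem_inter_iff, Set.mem_ofPred_eq, Prod.map, id,
      Function.update_self]
    rw [h1]
    constructor
    · rintro ⟨h, h'⟩
      refine ⟨?_, h'⟩
      rw [← h, Bool.not_not]
    · rintro ⟨h, h'⟩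
      refine ⟨?_, h'⟩
      rw [h, Bool.not_not]
  have hsum : P.real B = P.real ({p | p.2 z = c} ∩ B) + P.real ({p | p.2 z = !c} ∩ B) := by
    rw [← measureReal_union]
    · congr 1
      ext p
      simp only [Set.mem_union, Set.mem_inter_iff, Set.mem_ofPred_eq]
      constructor
      · intro h
        cases hp : p.2 z <;> cases c <;> simp [h]
      · rintro (h | h) <;> exact h.2
    · rw [Set.disjoint_left]
      rintro p ⟨h1, _⟩ ⟨h2, _⟩
      simp only [Set.mem_ofPred_eq] at h1 h2
      rw [h1] at h2
      cases c <;> simp at h2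
    · exact (hm1 _).inter hB
  rw [hsum, ← hflip c]
  ring

theorem mZ_insert (K : ℕ) (hK : 1 ≤ K) (F : Finset (V d)) (hF : F ⊆ box d K) (a b : V d → A)
    (m : Measure (V d → A)) [IsProbabilityMeasure m] (Z : Finset (V d)) (z : V d) (hz : z ∉ Z) :
    mZ K F a b m (insert z Z) =
      mix (1 / 2) (mZ K F a b m Z)
        ((mZ K F a b m Z).map (pswap (win K F z) (pat K a z) (pat K b z))) := by
  set T : (V d → A) → (V d → A) := pswap (win K F z) (pat K a z) (pat K b z) with hT
  have hTm : Measurable T := measurable_pswap _ _ _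
  have := mZ_prob K F a b m Z
  have := mZ_prob K F a b m (insert z Z)
  have : IsProbabilityMeasure ((mZ K F a b m Z).map T) :=
    Measure.isProbabilityMeasure_map hTm.aemeasurable
  have := mix_prob (1 / 2) (by norm_num) (by norm_num) (mZ K F a b m Z) ((mZ K F a b m Z).map T)
  have hfm := measurable_fZ K F a b Z
  have hcut0 : ∀ κ : V d → Bool, κ z = false → cut (insert z Z) κ = cut Z κ := by
    intro κ hκ
    funext y
    unfold cut
    by_cases hy : y = z
    · subst hy
      simp [hz, hκ]
    · simp [Finset.mem_insert, hy]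
  have hcut1 : ∀ κ : V d → Bool, κ z = true →
      cut (insert z Z) κ = Function.update (cut Z κ) z true := by
    intro κ hκ
    funext y
    by_cases hy : y = z
    · subst hy
      simp [cut, hκ]
    · rw [Function.update_of_ne hy]
      simp [cut, Finset.mem_insert, hy]
  have hcutz : ∀ κ : V d → Bool, cut Z κ z = false := by
    intro κ
    simp [cut, hz]
  have hcutf : ∀ κ : V d → Bool, cut Z (Function.update κ z (!κ z)) = cut Z κ := by
    intro κ
    funext y
    unfold cut
    by_cases hy : y = z
    · subst hy
      simp [hz]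
    · simp [Function.update_of_ne hy]
  have key : ∀ E : Set (V d → A), MeasurableSet E →
      (mZ K F a b m (insert z Z)).real E =
        1 / 2 * (mZ K F a b m Z).real E + 1 / 2 * ((mZ K F a b m Z).map T).real E := by
    intro E hE
    have e1 : ((mZ K F a b m Z).map T).real E = (mZ K F a b m Z).real (T ⁻¹' E) := by
      rw [Measure.real, Measure.map_apply hTm hE, Measure.real]
    have e2 : ∀ E : Set (V d → A), MeasurableSet E → (mZ K F a b m Z).real E =
        (m.prod (coins d)).real (fZ K F a b Z ⁻¹' E) := by
      intro E hE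
      rw [Measure.real, mZ, Measure.map_apply hfm hE, Measure.real]
    have e3 : (mZ K F a b m (insert z Z)).real E =
        (m.prod (coins d)).real (fZ K F a b (insert z Z) ⁻¹' E) := by
      rw [Measure.real, mZ, Measure.map_apply (measurable_fZ K F a b _) hE, Measure.real]
    rw [e1, e2 _ hE, e2 _ (hTm hE), e3]
    rw [← half m z (fZ K F a b Z ⁻¹' E) (hfm hE) ?_ false,
      ← half m z (fZ K F a b Z ⁻¹' (T ⁻¹' E)) (hfm (hTm hE)) ?_ true]
    · rw [← measureReal_union]
      · congr 1
        ext p
        simp only [Set.mem_union, Set.mem_inter_iff, Set.mem_ofPred_eq, Set.mem_preimage]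
        cases hp : p.2 z
        · have : fZ K F a b (insert z Z) p = fZ K F a b Z p := by
            unfold fZ
            rw [hcut0 _ hp]
          rw [this]
          simp
        · have : fZ K F a b (insert z Z) p = T (fZ K F a b Z p) := by
            unfold fZ
            rw [hcut1 _ hp, sw_insert K hK F hF a b _ z (hcutz _)]
          rw [this]
          simp
      · rw [Set.disjoint_left]
        rintro p ⟨h1, _⟩ ⟨h2, _⟩
        simp only [Set.mem_ofPred_eq] at h1 h2
        rw [h1] at h2
        simp at h2
      · have h : Measurable fun p : (V d → A) × (V d → Bool) => p.2 z :=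
          (measurable_pi_apply z).comp measurable_snd
        exact (h (measurableSet_singleton true)).inter (hfm (hTm hE))
    · intro p
      simp only [Set.mem_preimage, fZ, hcutf]
    · intro p
      simp only [Set.mem_preimage, fZ, hcutf]
  refine Measure.ext fun E hE => ?_
  rw [← measureReal_eq_measureReal_iff, key E hE, mix_real (1 / 2) (by norm_num) (by norm_num)]
  norm_num

omit [Fintype A] [MeasurableSpace A] [MeasurableSingletonClass A] in
theorem cell_add (K : ℕ) (y z : V d) (hy : y ∈ box d K) : cell K (y + (K : ℤ) • z) = z := by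
  funext i
  have h := (Fintype.mem_piFinset.mp hy) i
  rw [Finset.mem_Ico] at h
  have hK : (0 : ℤ) < K := lt_of_le_of_lt h.1 h.2
  unfold cell
  rw [Pi.add_apply, Pi.smul_apply, smul_eq_mul, Int.add_mul_ediv_left _ _ hK.ne',
    Int.ediv_eq_zero_of_lt h.1 h.2, zero_add]

omit [Fintype A] [MeasurableSpace A] [MeasurableSingletonClass A] in
theorem win_sub (K : ℕ) (F : Finset (V d)) (hF : F ⊆ box d K) (n : ℕ) (z : V d)
    (hz : z ∈ box d n) : win K F z ⊆ box d (n * K) := by
  intro x hx
  obtain ⟨y, hy, rfl⟩ := Finset.mem_image.mp hx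
  refine Fintype.mem_piFinset.mpr fun i => ?_
  have h := (Fintype.mem_piFinset.mp (hF hy)) i
  have h' := (Fintype.mem_piFinset.mp hz) i
  rw [Finset.mem_Ico] at h h' ⊢
  rw [Pi.add_apply, Pi.smul_apply, smul_eq_mul]
  have hK : (0 : ℤ) < K := lt_of_le_of_lt h.1 h.2
  constructor
  · have := mul_nonneg hK.le h'.1
    linarith [h.1]
  · push_cast
    have : z i + 1 ≤ n := h'.2
    nlinarith [h.2]

omit [Fintype A] [MeasurableSpace A] [MeasurableSingletonClass A] in
theorem cell_mem (K : ℕ) (hK : 1 ≤ K) (n : ℕ) (x : V d) (hx : x ∈ box d (n * K)) :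
    cell K x ∈ box d n := by
  refine Fintype.mem_piFinset.mpr fun i => ?_
  have h := (Fintype.mem_piFinset.mp hx) i
  rw [Finset.mem_Ico] at h ⊢
  have hK' : (0 : ℤ) < K := by exact_mod_cast hK
  unfold cell
  constructor
  · exact Int.ediv_nonneg h.1 hK'.le
  · refine Int.ediv_lt_of_lt_mul hK' ?_
    have := h.2
    push_cast at this
    exact this

omit [Fintype A] in
theorem meas_win (F : Finset (V d)) (c : V d → A) :
    MeasurableSet {ω : V d → A | ∀ x ∈ F, ω x = c x} := by
  have : {ω : V d → A | ∀ x ∈ F, ω x = c x} = ⋂ x ∈ F, {ω : V d → A | ω x = c x} := by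
    ext ω
    simp
  rw [this]
  refine Finset.measurableSet_biInter _ fun x _ => ?_
  have h : Measurable fun ω : V d → A => ω x := measurable_pi_apply x
  exact h (measurableSet_singleton (c x))

theorem mZ_win (K : ℕ) (F : Finset (V d)) (hF : F ⊆ box d K) (a b c : V d → A)
    (m : Measure (V d → A)) [IsProbabilityMeasure m] (hm : ∀ v, m.map (shift v) = m)
    (Z : Finset (V d)) (z : V d) (hz : z ∉ Z) :
    (mZ K F a b m Z).real {ω | ∀ x ∈ win K F z, ω x = pat K c z x} =
      m.real {ω | ∀ x ∈ F, ω x = c x} := by
  have e1 : (fZ K F a b Z) ⁻¹' {ω | ∀ x ∈ win K F z, ω x = pat K c z x} =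
      Prod.fst ⁻¹' {ω : V d → A | ∀ x ∈ win K F z, ω x = pat K c z x} := by
    ext p
    have : ∀ x ∈ win K F z, fZ K F a b Z p x = p.1 x := by
      intro x hx
      obtain ⟨y, hy, rfl⟩ := Finset.mem_image.mp hx
      have h := sw_local K F a b (cut Z p.2) (fun _ => false) p.1 (y + (K : ℤ) • z) (by
        rw [cell_add K y z (hF hy)]
        simp [cut, hz])
      unfold fZ
      rw [h, sw_false]
    simp only [Set.mem_preimage, Set.mem_ofPred_eq]
    exact ⟨fun h x hx => by rw [← this x hx]; exact h x hx,
      fun h x hx => by rw [this x hx]; exact h x hx⟩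
  have e2 : {ω : V d → A | ∀ x ∈ win K F z, ω x = pat K c z x} =
      shift ((K : ℤ) • z) ⁻¹' {ω : V d → A | ∀ x ∈ F, ω x = c x} := by
    ext ω
    simp only [Set.mem_preimage, Set.mem_ofPred_eq, win, Finset.forall_mem_image, pat, shift,
      add_sub_cancel_right]
  have hms : MeasurableSet {ω : V d → A | ∀ x ∈ win K F z, ω x = pat K c z x} :=
    meas_win (win K F z) (pat K c z)
  rw [Measure.real, mZ, Measure.map_apply (measurable_fZ K F a b Z) hms, e1, Measure.real,
    ← Measure.map_apply measurable_fst hms, measurePreserving_fst.map_eq, e2,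
    ← Measure.map_apply (measurable_shiftE _) (meas_win F c), hm]

theorem mZ_HF (K : ℕ) (hK : 1 ≤ K) (F : Finset (V d)) (hF : F ⊆ box d K) (a b : V d → A)
    (m : Measure (V d → A)) [IsProbabilityMeasure m] (hm : ∀ v, m.map (shift v) = m)
    (G : Finset (V d)) (Z : Finset (V d)) (hZ : ∀ z ∈ Z, win K F z ⊆ G) :
    HF m G + (Z.card : ℝ) *
      ((m.real {ω | ∀ x ∈ F, ω x = a x} - m.real {ω | ∀ x ∈ F, ω x = b x}) ^ 2 / 8) ≤
      HF (mZ K F a b m Z) G := by
  induction Z using Finset.induction_on with
  | empty =>
    rw [mZ_empty]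
    simp
  | insert z Z hz ih =>
    have hi := ih fun y hy => hZ y (Finset.mem_insert_of_mem hy)
    have := mZ_prob K F a b m Z
    have hs := swap_gain (mZ K F a b m Z) (win K F z) G (hZ z (Finset.mem_insert_self z Z))
      (pat K a z) (pat K b z)
    rw [mZ_win K F hF a b a m hm Z z hz, mZ_win K F hF a b b m hm Z z hz] at hs
    rw [mZ_insert K hK F hF a b m Z z hz, Finset.card_insert_of_notMem hz]
    push_cast
    linarith

theorem swm_eq (K : ℕ) (hK : 1 ≤ K) (F : Finset (V d)) (a b : V d → A)
    (m : Measure (V d → A)) [IsProbabilityMeasure m] (n : ℕ) :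
    HF (swm K F a b m) (box d (n * K)) = HF (mZ K F a b m (box d n)) (box d (n * K)) := by
  unfold HF
  refine Finset.sum_congr rfl fun c _ => ?_
  congr 1
  have hms : MeasurableSet {ω : V d → A | ∀ x : (box d (n * K)), ω x = c x} := by
    have : {ω : V d → A | ∀ x : (box d (n * K)), ω x = c x} =
        ⋂ x : (box d (n * K)), {ω : V d → A | ω x = c x} := by
      ext ω
      simp
    rw [this]
    refine MeasurableSet.iInter fun x => ?_
    have h : Measurable fun ω : V d → A => ω x := measurable_pi_apply _
    exact h (measurableSet_singleton (c x))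
  rw [Measure.real, Measure.real, swm, mZ, Measure.map_apply (measurable_sw K F a b) hms,
    Measure.map_apply (measurable_fZ K F a b _) hms]
  congr 2
  ext p
  have : ∀ x : (box d (n * K)), sw K F a b p.2 p.1 x = fZ K F a b (box d n) p x := by
    intro x
    unfold fZ
    refine sw_local K F a b _ _ p.1 x ?_
    have hx : cell K (x : V d) ∈ box d n := cell_mem K hK n (x : V d) x.2
    simp [cut, hx]
  simp only [Set.mem_preimage, Set.mem_ofPred_eq, this]

end SwLawAux

theorem swm_prob (K : ℕ) (F : Finset (V d)) (a b : V d → A) (m : Measure (V d → A))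
    [IsProbabilityMeasure m] : IsProbabilityMeasure (swm K F a b m) := by
  exact Measure.isProbabilityMeasure_map (measurable_sw K F a b).aemeasurable

theorem swm_shift (K : ℕ) (hK : 1 ≤ K) (F : Finset (V d)) (a b : V d → A)
    (m : Measure (V d → A)) [IsProbabilityMeasure m] (hm : ∀ v, m.map (shift v) = m) (u : V d) :
    (swm K F a b m).map (shift ((K : ℤ) • u)) = swm K F a b m := by
  have hc : Measurable fun κ : V d → Bool => κ ∘ fun z => z + u :=
    measurable_pi_iff.mpr fun y => measurable_pi_apply (y + u)
  have hprod : (m.prod (coins d)).map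
      (Prod.map (shift ((K : ℤ) • u)) fun κ : V d → Bool => κ ∘ fun z => z + u) =
      m.prod (coins d) := by
    rw [← Measure.map_prod_map _ _ (measurable_shiftE _) hc, hm]
    congr 1
    have h := coins_comp (d := d) (fun z => z + u) id (fun x y => by simp)
    rw [h]
    exact Measure.map_id
  unfold swm
  rw [Measure.map_map (measurable_shiftE _) (measurable_sw K F a b)]
  conv_rhs => rw [← hprod]
  rw [Measure.map_map (measurable_sw K F a b) ((measurable_shiftE _).prodMap hc)]
  congr 1
  funext p
  have h := sw_shift K hK F a b (fun z => p.2 (z + u)) u p.1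
  simp only [sub_add_cancel] at h
  exact h.symm

theorem swm_HF (K : ℕ) (hK : 1 ≤ K) (F : Finset (V d)) (hF : F ⊆ box d K) (a b : V d → A)
    (m : Measure (V d → A)) [IsProbabilityMeasure m] (hm : ∀ v, m.map (shift v) = m) (n : ℕ) :
    HF m (box d (n * K)) + (n : ℝ) ^ d *
      ((m.real {ω | ∀ x ∈ F, ω x = a x} - m.real {ω | ∀ x ∈ F, ω x = b x}) ^ 2 / 8) ≤
      HF (swm K F a b m) (box d (n * K)) := by
  have h := SwLawAux.mZ_HF K hK F hF a b m hm (box d (n * K)) (box d n)
    fun z hz => SwLawAux.win_sub K F hF n z hz
  rw [card_box, Nat.cast_pow, ← SwLawAux.swm_eq K hK F a b m n] at h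
  exact h

end Helper15.DE
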