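import Pool.Agent.Helper10.DE.VP.GainVec
import Pool.Agent.Helper10.DE.ET.HFBasic

/-!
# DE IV.2  One exchange of patterns

`pswap F a b` (Helper15/DE/Defs) exchanges the patterns `a|F` and `b|F` on the window `F`.
* `pswap_invol`: involution.  (If `a = b` on `F` it is the identity.)
* `swap_gain`: for `F ⊆ G` the pattern of `pswap F a b ω` on `G` is `R (pattern of ω on G)` with the
  involution `R` of `G → A` given by the same rule; so with `p ξ = μ(ω|G = ξ)` the law under
  `μ.map (pswap F a b)` is `p ∘ R`, under the mixture `(p + p ∘ R)/2`; apply `gain_vec` with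
  `E = {ξ | ξ = a on F}`: `∑_{ξ ∈ E} (p ξ - p (R ξ)) = μ(ω|F = a) - μ(ω|F = b)`.
-/

noncomputable section

open MeasureTheory Filter Topology

namespace Helper15.DE

variable {d : ℕ} {A : Type} [Fintype A] [MeasurableSpace A] [MeasurableSingletonClass A]

omit [Fintype A] [MeasurableSpace A] [MeasurableSingletonClass A] in
theorem pswap_invol (F : Finset (V d)) (a b : V d → A) (ω : V d → A) :
    pswap F a b (pswap F a b ω) = ω := by
  by_cases h1 : ∀ x ∈ F, ω x = a x
  · have e1 : pswap F a b ω = fun x => if x ∈ F then b x else ω x := by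
      unfold pswap
      rw [if_pos h1]
    rw [e1]
    by_cases h2 : ∀ x ∈ F, b x = a x
    · unfold pswap
      rw [if_pos (fun x hx => by simp only [if_pos hx]; exact h2 x hx)]
      funext x
      by_cases hx : x ∈ F
      · simp only [if_pos hx]
        rw [h1 x hx, h2 x hx]
      · simp only [if_neg hx]
    · unfold pswap
      rw [if_neg (fun h => h2 fun x hx => by have := h x hx; simp only [if_pos hx] at this; exact this),
        if_pos (fun x hx => by simp only [if_pos hx])]
      funext x
      by_cases hx : x ∈ F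
      · simp only [if_pos hx]
        rw [h1 x hx]
      · simp only [if_neg hx]
  · by_cases h2 : ∀ x ∈ F, ω x = b x
    · have e1 : pswap F a b ω = fun x => if x ∈ F then a x else ω x := by
        unfold pswap
        rw [if_neg h1, if_pos h2]
      rw [e1]
      unfold pswap
      rw [if_pos (fun x hx => by simp only [if_pos hx])]
      funext x
      by_cases hx : x ∈ F
      · simp only [if_pos hx]
        rw [h2 x hx]
      · simp only [if_neg hx]
    · have e1 : pswap F a b ω = ω := by
        unfold pswap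
        rw [if_neg h1, if_neg h2]
      rw [e1, e1]

omit [Fintype A] in
private theorem measurableSet_pat (F : Finset (V d)) (a : V d → A) :
    MeasurableSet {ω : V d → A | ∀ x ∈ F, ω x = a x} := by
  have h : {ω : V d → A | ∀ x ∈ F, ω x = a x} = ⋂ x ∈ F, (fun ω : V d → A => ω x) ⁻¹' {a x} := by
    ext ω
    simp
  rw [h]
  exact Finset.measurableSet_biInter F fun x _ => measurable_pi_apply x (measurableSet_singleton _)

omit [Fintype A] [MeasurableSingletonClass A] in
private theorem measurable_put (F : Finset (V d)) (b : V d → A) :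
    Measurable (fun (ω : V d → A) (x : V d) => if x ∈ F then b x else ω x) := by
  classical
  refine measurable_pi_lambda _ fun x => ?_
  by_cases hx : x ∈ F
  · simp only [if_pos hx]
    exact measurable_const
  · simp only [if_neg hx]
    exact measurable_pi_apply x

theorem measurable_pswap (F : Finset (V d)) (a b : V d → A) : Measurable (pswap F a b) := by
  classical
  have h : pswap F a b = fun ω => if ∀ x ∈ F, ω x = a x then (fun x => if x ∈ F then b x else ω x)
      else if ∀ x ∈ F, ω x = b x then (fun x => if x ∈ F then a x else ω x) else ω := by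
    funext ω
    unfold pswap
    congr
  rw [h]
  refine Measurable.ite (measurableSet_pat F a) (measurable_put F b) ?_
  exact Measurable.ite (measurableSet_pat F b) (measurable_put F a) measurable_id

omit [Fintype A] [MeasurableSpace A] [MeasurableSingletonClass A] in
private theorem pswap_congr (F G : Finset (V d)) (hFG : F ⊆ G) (a b : V d → A) (ω ω' : V d → A)
    (h : ∀ x ∈ G, ω x = ω' x) : ∀ x ∈ G, pswap F a b ω x = pswap F a b ω' x := by
  intro x hx
  have e1 : (∀ x ∈ F, ω x = a x) ↔ (∀ x ∈ F, ω' x = a x) :=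
    forall₂_congr fun y hy => by rw [h y (hFG hy)]
  have e2 : (∀ x ∈ F, ω x = b x) ↔ (∀ x ∈ F, ω' x = b x) :=
    forall₂_congr fun y hy => by rw [h y (hFG hy)]
  unfold pswap
  by_cases h1 : ∀ x ∈ F, ω x = a x
  · rw [if_pos h1, if_pos (e1.1 h1)]
    simp only [h x hx]
  · rw [if_neg h1, if_neg (fun h' => h1 (e1.2 h'))]
    by_cases h2 : ∀ x ∈ F, ω x = b x
    · rw [if_pos h2, if_pos (e2.1 h2)]
      simp only [h x hx]
    · rw [if_neg h2, if_neg (fun h' => h2 (e2.2 h')), h x hx]

omit [Fintype A] [MeasurableSpace A] [MeasurableSingletonClass A] in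
private theorem pswap_eq_a (F : Finset (V d)) (a b : V d → A) (ω : V d → A) :
    (∀ x ∈ F, pswap F a b ω x = a x) ↔ (∀ x ∈ F, ω x = b x) := by
  unfold pswap
  by_cases h1 : ∀ x ∈ F, ω x = a x
  · rw [if_pos h1]
    refine forall₂_congr fun x hx => ?_
    rw [if_pos hx, h1 x hx]
    exact eq_comm
  · rw [if_neg h1]
    by_cases h2 : ∀ x ∈ F, ω x = b x
    · rw [if_pos h2]
      refine ⟨fun _ => h2, fun _ x hx => by rw [if_pos hx]⟩
    · rw [if_neg h2]
      exact ⟨fun h => absurd h h1, fun h => absurd h h2⟩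

theorem swap_gain (μ : Measure (V d → A)) [IsProbabilityMeasure μ] (F G : Finset (V d))
    (hFG : F ⊆ G) (a b : V d → A) :
    HF μ G + (μ.real {ω | ∀ x ∈ F, ω x = a x} - μ.real {ω | ∀ x ∈ F, ω x = b x}) ^ 2 / 8 ≤
      HF (mix (1 / 2) μ (μ.map (pswap F a b))) G := by
  classical
  set T : (V d → A) → (V d → A) := pswap F a b with hT
  have hTm : Measurable T := measurable_pswap F a b
  set r : (V d → A) → (G → A) := fun ω x => ω x with hr
  have hrm : Measurable r := measurable_restr G
  set ext : (G → A) → (V d → A) := fun ξ x => if hx : x ∈ G then ξ ⟨x, hx⟩ else a x with hext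
  have hre : ∀ ξ, r (ext ξ) = ξ := by
    intro ξ
    funext x
    simp only [hr, hext]
    rw [dif_pos x.2]
  set R : (G → A) → (G → A) := fun ξ => r (T (ext ξ)) with hR
  have hRr : ∀ ω, R (r ω) = r (T ω) := by
    intro ω
    funext x
    refine pswap_congr F G hFG a b _ _ (fun y hy => ?_) x x.2
    simp only [hext, hr]
    rw [dif_pos hy]
  have hRR : ∀ ξ, R (R ξ) = ξ := by
    intro ξ
    show R (r (T (ext ξ))) = ξ
    rw [hRr, hT, pswap_invol, hre]
  set p : (G → A) → ℝ := fun ξ => μ.real (r ⁻¹' {ξ}) with hp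
  have hpE : ∀ E : Finset (G → A), ∑ ξ ∈ E, p ξ = μ.real (r ⁻¹' (E : Set (G → A))) := fun E =>
    sum_measureReal_preimage_singleton E (fun ξ _ => hrm (measurableSet_singleton ξ))
  have hpR : ∀ ξ, p (R ξ) = μ.real ((fun ω => r (T ω)) ⁻¹' {ξ}) := by
    intro ξ
    simp only [hp]
    congr 1
    ext ω
    simp only [Set.mem_preimage, Set.mem_singleton_iff]
    rw [← hRr]
    constructor
    · intro h; rw [h, hRR]
    · intro h; rw [← h, hRR]
  have hpRE : ∀ E : Finset (G → A), ∑ ξ ∈ E, p (R ξ)
      = μ.real ((fun ω => r (T ω)) ⁻¹' (E : Set (G → A))) := by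
    intro E
    have hm : Measurable (fun ω => r (T ω)) := hrm.comp hTm
    have h := sum_measureReal_preimage_singleton (μ := μ) (f := fun ω => r (T ω)) E
      (fun ξ _ => hm (measurableSet_singleton ξ))
    rw [← h]
    exact Finset.sum_congr rfl fun ξ _ => hpR ξ
  have hp0 : ∀ ξ, 0 ≤ p ξ := fun ξ => measureReal_nonneg
  have hp1 : ∑ ξ, p ξ = 1 := by
    rw [hpE]
    simp
  set E : Finset (G → A) := Finset.univ.filter (fun ξ => ∀ x (hx : x ∈ F), ξ ⟨x, hFG hx⟩ = a x)
    with hE
  have h1 : r ⁻¹' (E : Set (G → A)) = {ω | ∀ x ∈ F, ω x = a x} := by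
    ext ω
    simp [hE, hr]
  have h2 : (fun ω => r (T ω)) ⁻¹' (E : Set (G → A)) = {ω | ∀ x ∈ F, ω x = b x} := by
    ext ω
    have h3 := pswap_eq_a F a b ω
    simp only [Set.mem_preimage, hE, Finset.coe_filter, Finset.mem_univ, true_and,
      Set.mem_ofPred_eq, hr]
    exact h3
  have hgain := gain_vec R hRR p hp0 hp1 E
  rw [Finset.sum_sub_distrib, hpE, hpRE, h1, h2] at hgain
  have hcyl : ∀ (ν : Measure (V d → A)) (ξ : G → A), ν.real {ω | ∀ x : G, ω x = ξ x}
      = ν.real (r ⁻¹' {ξ}) := by
    intro ν ξ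
    congr 1
    ext ω
    simp [hr, funext_iff]
  have hprob : IsProbabilityMeasure (μ.map T) := Measure.isProbabilityMeasure_map hTm.aemeasurable
  have hL : HF μ G = ∑ ξ, Real.negMulLog (p ξ) := by
    unfold HF
    exact Finset.sum_congr rfl fun ξ _ => by rw [hcyl]
  have hRt : HF (mix (1 / 2) μ (μ.map T)) G = ∑ ξ, Real.negMulLog ((p ξ + p (R ξ)) / 2) := by
    unfold HF
    refine Finset.sum_congr rfl fun ξ _ => ?_
    rw [hcyl, mix_real (1 / 2) (by norm_num) (by norm_num), hpR,
      map_measureReal_apply hTm (hrm (measurableSet_singleton ξ))]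
    congr 1
    have h3 : T ⁻¹' (r ⁻¹' {ξ}) = (fun ω => r (T ω)) ⁻¹' {ξ} := rfl
    rw [h3]
    simp only [hp]
    ring
  rw [hL, hRt]
  exact hgain

end Helper15.DE
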