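import Pool.Agent.Helper10.DE.VP.SwLaw
import Pool.Agent.Helper10.DE.CP.Lim

/-!
# DE IV.5  The variational principle

`vp_gain`: if two patterns `a, b` on `F` can be exchanged inside `C` (at all places), have the same
total charge and different probabilities, there is an invariant measure with the same mean charge
and strictly larger entropy.
PROOF.  First `F ⊆ box d K` with `K ≥ 1`: let `m' = swm K F a b m`, `ν = avg K m'`.  `Inv C ν`
(`avg_shift`, `swm_shift`, `sw_mem`, `avg_supp`), `mean c ν = mean c m`: `avg_mean`, `sw_charge` and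
invariance of `m`.  With `δ = (m(a) - m(b))²/8 > 0`: for `n ≥ 1`:
`HF m' (box (n K)) ≥ HF m (box (nK)) + n^d δ ≥ (n K)^d (hent m + δ/K^d)` (`swm_HF`, `hent_le`), so
`hent ν ≥ hent m + δ/K^d > hent m` (`avg_hent`).
General `F`: choose `v₀` and `K` with `F ⊆ v₀ + box d K`, replace `F` by `F - v₀`, `a` by `a (· + v₀)`,
`b` by `b (· + v₀)`; `m(ω|F = a) = m(ω|(F - v₀) = a(· + v₀))` by invariance; the closure hypothesis is
for all translates.
`vp_inv`: if `m` is maximal then it is invariant under `pswap F a b`: by `cyl_ext` it suffices to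
compare cylinders on finite sets `G ⊇ F` (cylinders on smaller sets are sums); the pattern `ξ` on `G`
is moved to `ξ' = ` pattern of `pswap F a b` and `m(ξ) = m(ξ')` by `vp_gain` applied to the window
`G` and the patterns `ξ, ξ'` (if `ξ|F = a|F` or `b|F`; otherwise `ξ' = ξ`); `C` is closed under the
exchange of `ξ, ξ'` since on a configuration with pattern `ξ` (or `ξ'`) on `G` it acts as
`pswap F a b`; the charge condition for `ξ, ξ'` follows from the one for `a, b`.
-/

noncomputable section

open MeasureTheory Filter Topology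

namespace Helper15.DE

variable {d : ℕ} {A : Type} [Fintype A] [MeasurableSpace A] [MeasurableSingletonClass A]

/-- The window and the pattern translated by `v`. -/
def tr (F : Finset (V d)) (v : V d) : Finset (V d) := F.image fun x => x + v

namespace VPG

theorem coin_prob : IsProbabilityMeasure coin := by
  unfold coin
  infer_instance

theorem coins_prob : IsProbabilityMeasure (coins d) := by
  have := coin_prob
  unfold coins
  infer_instance

omit [Fintype A] in
theorem meas_cylS (F : Finset (V d)) (a : V d → A) :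
    MeasurableSet {ω : V d → A | ∀ x ∈ F, ω x = a x} := by
  have : {ω : V d → A | ∀ x ∈ F, ω x = a x} = ⋂ x ∈ F, (fun ω : V d → A => ω x) ⁻¹' {a x} := by
    ext ω
    simp
  rw [this]
  exact Finset.measurableSet_biInter _ fun x _ =>
    (measurable_pi_apply _) (measurableSet_singleton _)

omit [Fintype A] [MeasurableSpace A] [MeasurableSingletonClass A] in
theorem avg_self [MeasurableSpace A] (K : ℕ) (hK : 1 ≤ K) (m : Measure (V d → A))
    (hm : ∀ v, m.map (shift v) = m) : avg K m = m := by
  unfold avg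
  rw [Finset.sum_congr rfl fun v _ => hm v, Finset.sum_const, ← Nat.cast_smul_eq_nsmul ENNReal,
    smul_smul, card_box, Nat.cast_pow, ENNReal.inv_mul_cancel, one_smul]
  · exact pow_ne_zero _ (by exact_mod_cast (by omega : K ≠ 0))
  · exact ENNReal.pow_ne_top (ENNReal.natCast_ne_top K)

theorem box_gain (C : Set (V d → A)) (hC : ClosedC C) (hS : ShiftC C) {k : ℕ}
    (c : A → Fin k → ℝ) (m : Measure (V d → A)) (hm : Inv C m) (K : ℕ) (hK : 1 ≤ K)
    (F : Finset (V d)) (hF : F ⊆ box d K)
    (a b : V d → A)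
    (hcl : ∀ z : V d, ∀ ω ∈ C, pswap (win K F z) (pat K a z) (pat K b z) ω ∈ C)
    (hc : ∀ i, ∑ x ∈ F, c (a x) i = ∑ x ∈ F, c (b x) i)
    (hne : m.real {ω | ∀ x ∈ F, ω x = a x} ≠ m.real {ω | ∀ x ∈ F, ω x = b x}) :
    ∃ ν, Inv C ν ∧ mean c ν = mean c m ∧ hent m < hent ν := by
  have := hm.prob
  have := coins_prob (d := d)
  have := swm_prob K F a b m
  have hms : ∀ u : V d, (swm K F a b m).map (shift ((K : ℤ) • u)) = swm K F a b m :=
    swm_shift K hK F a b m hm.map
  have hsw : Measurable fun p : (V d → A) × (V d → Bool) => sw K F a b p.2 p.1 :=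
    measurable_sw K F a b
  refine ⟨avg K (swm K F a b m), ⟨avg_prob K hK _, avg_shift K hK _ hms,
    avg_supp K hK _ C hS ?_⟩, ?_, ?_⟩
  · unfold swm
    refine (ae_map_iff (p := fun ω => ω ∈ C) hsw.aemeasurable (closed_measurable C hC)).mpr ?_
    have h1 : ∀ᵐ p ∂(m.prod (coins d)), p.1 ∈ C :=
      Measure.quasiMeasurePreserving_fst.ae hm.supp
    filter_upwards [h1] with p hp
    exact sw_mem K hK F hF a b C hC hcl p.2 p.1 hp
  · funext i
    have h1 : mean c (avg K (swm K F a b m)) i = mean c (avg K m) i := by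
      rw [avg_mean K hK, avg_mean K hK]
      congr 1
      unfold swm
      have hmc : Measurable fun ω : V d → A => ∑ v ∈ box d K, c (ω v) i :=
        Finset.measurable_sum _ fun v _ =>
          (measurable_of_finite fun a => c a i).comp (measurable_pi_apply v)
      rw [integral_map hsw.aemeasurable hmc.aestronglyMeasurable]
      simp only [sw_charge K hK F hF a b c i (hc i)]
      have h2 := integral_map (μ := m.prod (coins d)) (φ := Prod.fst)
        (f := fun ω : V d → A => ∑ v ∈ box d K, c (ω v) i) measurable_fst.aemeasurable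
        hmc.aestronglyMeasurable
      rw [← h2]
      congr 1
      exact Measure.fst_prod
    rw [h1, avg_self K hK m hm.map]
  · have hd : 0 < (m.real {ω | ∀ x ∈ F, ω x = a x} - m.real {ω | ∀ x ∈ F, ω x = b x}) ^ 2 / 8 := by
      have : m.real {ω | ∀ x ∈ F, ω x = a x} - m.real {ω | ∀ x ∈ F, ω x = b x} ≠ 0 :=
        sub_ne_zero.mpr hne
      positivity
    have hK0 : (0 : ℝ) < K := by exact_mod_cast hK
    have hKd : (0 : ℝ) < (K : ℝ) ^ d := pow_pos hK0 d
    have h1 := avg_hent K hK (swm K F a b m) hms (hent m +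
      (m.real {ω | ∀ x ∈ F, ω x = a x} - m.real {ω | ∀ x ∈ F, ω x = b x}) ^ 2 / 8 / (K : ℝ) ^ d) ?_
    · refine lt_of_lt_of_le ?_ h1
      have := div_pos hd hKd
      linarith
    · intro n hn
      have h2 := swm_HF K hK F hF a b m hm.map n
      have hnK : 1 ≤ n * K := Nat.mul_pos hn hK
      have h3 := hent_le m (n * K) hnK
      have hn0 : (0 : ℝ) < ((n * K : ℕ) : ℝ) ^ d := pow_pos (by exact_mod_cast hnK) d
      rw [le_div_iff₀ hn0] at h3
      refine le_trans ?_ h2
      have h4 : ((n * K : ℕ) : ℝ) ^ d = (n : ℝ) ^ d * (K : ℝ) ^ d := by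
        push_cast
        exact mul_pow _ _ _
      rw [mul_add]
      have h5 : ((n * K : ℕ) : ℝ) ^ d * ((m.real {ω | ∀ x ∈ F, ω x = a x} -
          m.real {ω | ∀ x ∈ F, ω x = b x}) ^ 2 / 8 / (K : ℝ) ^ d) =
          (n : ℝ) ^ d * ((m.real {ω | ∀ x ∈ F, ω x = a x} -
          m.real {ω | ∀ x ∈ F, ω x = b x}) ^ 2 / 8) := by
        rw [h4]
        field_simp
      rw [h5, mul_comm (((n * K : ℕ) : ℝ) ^ d) (hent m)]
      linarith

theorem exists_rad (F : Finset (V d)) : ∃ R : ℕ, ∀ x ∈ F, ∀ i, -(R : ℤ) ≤ x i ∧ x i ≤ R := by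
  refine ⟨∑ x ∈ F, ∑ i, (x i).natAbs, fun x hx i => ?_⟩
  have h1 : (x i).natAbs ≤ ∑ j, (x j).natAbs :=
    Finset.single_le_sum (f := fun j => (x j).natAbs) (fun _ _ => Nat.zero_le _) (Finset.mem_univ i)
  have h2 : ∑ j, (x j).natAbs ≤ ∑ x ∈ F, ∑ i, (x i).natAbs :=
    Finset.single_le_sum (f := fun y : V d => ∑ j, (y j).natAbs) (fun _ _ => Nat.zero_le _) hx
  have h3 : (x i).natAbs ≤ ∑ x ∈ F, ∑ i, (x i).natAbs := h1.trans h2
  omega

theorem real_tr (m : Measure (V d → A)) (hm : ∀ v, m.map (shift v) = m) (F : Finset (V d))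
    (a : V d → A) (v : V d) :
    m.real {ω | ∀ x ∈ F.image (fun x => x - v), ω x = a (x + v)} =
      m.real {ω | ∀ x ∈ F, ω x = a x} := by
  have h1 : {ω : V d → A | ∀ x ∈ F.image (fun x => x - v), ω x = a (x + v)} =
      shift (-v) ⁻¹' {ω : V d → A | ∀ x ∈ F, ω x = a x} := by
    ext ω
    simp only [Set.mem_ofPred_eq, Set.mem_preimage, shift]
    constructor
    · intro h x hx
      have := h (x - v) (Finset.mem_image_of_mem _ hx)
      rw [sub_add_cancel] at this
      rw [← sub_eq_add_neg]
      exact this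
    · intro h y hy
      obtain ⟨x, hx, rfl⟩ := Finset.mem_image.mp hy
      have := h x hx
      rw [← sub_eq_add_neg] at this
      rw [this, sub_add_cancel]
  rw [h1]
  conv_rhs => rw [← hm (-v)]
  rw [measureReal_def, measureReal_def, Measure.map_apply (measurable_shiftE _) (meas_cylS F a)]

omit [Fintype A] [MeasurableSpace A] [MeasurableSingletonClass A] in
theorem pswap_congr (F G : Finset (V d)) (hFG : F ⊆ G) (a b ω ω' : V d → A)
    (h : ∀ x ∈ G, ω x = ω' x) : ∀ x ∈ G, pswap F a b ω x = pswap F a b ω' x := by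
  intro x hx
  have e1 : (∀ x ∈ F, ω x = a x) ↔ ∀ x ∈ F, ω' x = a x :=
    forall₂_congr fun y hy => by rw [h y (hFG hy)]
  have e2 : (∀ x ∈ F, ω x = b x) ↔ ∀ x ∈ F, ω' x = b x :=
    forall₂_congr fun y hy => by rw [h y (hFG hy)]
  unfold pswap
  by_cases h1 : ∀ x ∈ F, ω x = a x
  · rw [if_pos h1, if_pos (e1.mp h1)]
    simp only [h x hx]
  · rw [if_neg h1, if_neg fun h' => h1 (e1.mpr h')]
    by_cases h2 : ∀ x ∈ F, ω x = b x
    · rw [if_pos h2, if_pos (e2.mp h2)]
      simp only [h x hx]
    · rw [if_neg h2, if_neg fun h' => h2 (e2.mpr h')]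
      exact h x hx

omit [Fintype A] [MeasurableSpace A] [MeasurableSingletonClass A] in
theorem pswap_off (F : Finset (V d)) (a b ω : V d → A) (x : V d) (hx : x ∉ F) :
    pswap F a b ω x = ω x := by
  unfold pswap
  split_ifs <;> simp only [if_neg hx]

omit [Fintype A] [MeasurableSpace A] [MeasurableSingletonClass A] in
theorem pswap_a (F : Finset (V d)) (a b ω : V d → A) (h : ∀ x ∈ F, ω x = a x) (x : V d)
    (hx : x ∈ F) : pswap F a b ω x = b x := by
  unfold pswap
  rw [if_pos h, if_pos hx]

omit [Fintype A] [MeasurableSpace A] [MeasurableSingletonClass A] in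
theorem pswap_b (F : Finset (V d)) (a b ω : V d → A) (h : ¬ ∀ x ∈ F, ω x = a x)
    (h' : ∀ x ∈ F, ω x = b x) (x : V d)
    (hx : x ∈ F) : pswap F a b ω x = a x := by
  unfold pswap
  rw [if_neg h, if_pos h', if_pos hx]

omit [Fintype A] [MeasurableSpace A] [MeasurableSingletonClass A] in
theorem pswap_n (F : Finset (V d)) (a b ω : V d → A) (h : ¬ ∀ x ∈ F, ω x = a x)
    (h' : ¬ ∀ x ∈ F, ω x = b x) : pswap F a b ω = ω := by
  unfold pswap
  rw [if_neg h, if_neg h']

omit [Fintype A] [MeasurableSpace A] [MeasurableSingletonClass A] in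
theorem pswap_tr (F : Finset (V d)) (a b ω : V d → A) (v x : V d) :
    pswap (tr F v) (fun x => a (x - v)) (fun x => b (x - v)) ω x =
      pswap F a b (shift v ω) (x - v) := by
  have e0 : x ∈ tr F v ↔ x - v ∈ F := by
    unfold tr
    rw [Finset.mem_image]
    constructor
    · rintro ⟨y, hy, rfl⟩
      rwa [add_sub_cancel_right]
    · intro h
      exact ⟨_, h, sub_add_cancel _ _⟩
  have e1 : ∀ p : V d → A, (∀ x ∈ tr F v, ω x = p (x - v)) ↔ ∀ x ∈ F, shift v ω x = p x := by
    intro p
    unfold tr shift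
    constructor
    · intro h y hy
      have := h (y + v) (Finset.mem_image_of_mem _ hy)
      rwa [add_sub_cancel_right] at this
    · intro h y hy
      obtain ⟨z, hz, rfl⟩ := Finset.mem_image.mp hy
      rw [add_sub_cancel_right]
      exact h z hz
  have e2 : ω x = shift v ω (x - v) := by
    unfold shift
    rw [sub_add_cancel]
  unfold pswap
  by_cases h1 : ∀ x ∈ F, shift v ω x = a x
  · rw [if_pos h1, if_pos ((e1 a).mpr h1)]
    simp only [e0, ← e2]
  · rw [if_neg h1, if_neg fun h => h1 ((e1 a).mp h)]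
    by_cases h2 : ∀ x ∈ F, shift v ω x = b x
    · rw [if_pos h2, if_pos ((e1 b).mpr h2)]
      simp only [e0, ← e2]
    · rw [if_neg h2, if_neg fun h => h2 ((e1 b).mp h)]
      exact e2

end VPG

theorem vp_gain (C : Set (V d → A)) (hC : ClosedC C) (hS : ShiftC C) {k : ℕ}
    (c : A → Fin k → ℝ) (m : Measure (V d → A)) (hm : Inv C m) (F : Finset (V d))
    (a b : V d → A)
    (hcl : ∀ v : V d, ∀ ω ∈ C,
      pswap (tr F v) (fun x => a (x - v)) (fun x => b (x - v)) ω ∈ C)
    (hc : ∀ i, ∑ x ∈ F, c (a x) i = ∑ x ∈ F, c (b x) i)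
    (hne : m.real {ω | ∀ x ∈ F, ω x = a x} ≠ m.real {ω | ∀ x ∈ F, ω x = b x}) :
    ∃ ν, Inv C ν ∧ mean c ν = mean c m ∧ hent m < hent ν := by
  obtain ⟨R, hR⟩ := VPG.exists_rad F
  set v₀ : V d := fun _ => -(R : ℤ) with hv₀
  refine VPG.box_gain C hC hS c m hm (2 * R + 1) (by omega) (F.image fun x => x - v₀) ?_
    (fun x => a (x + v₀)) (fun x => b (x + v₀)) ?_ ?_ ?_
  · intro y hy
    obtain ⟨x, hx, rfl⟩ := Finset.mem_image.mp hy
    unfold box
    rw [Fintype.mem_piFinset]
    intro i
    have h1 := hR x hx i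
    rw [Finset.mem_Ico]
    simp only [Pi.sub_apply, hv₀]
    push_cast
    omega
  · intro z ω hω
    have h1 := hcl (((2 * R + 1 : ℕ) : ℤ) • z - v₀) ω hω
    have e1 : win (2 * R + 1) (F.image fun x => x - v₀) z =
        tr F (((2 * R + 1 : ℕ) : ℤ) • z - v₀) := by
      unfold win tr
      rw [Finset.image_image]
      congr 1
      funext x
      simp only [Function.comp]
      rw [sub_add_eq_add_sub, add_sub_assoc]
    have e2 : ∀ p : V d → A, pat (2 * R + 1) (fun x => p (x + v₀)) z =
        fun x => p (x - (((2 * R + 1 : ℕ) : ℤ) • z - v₀)) := by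
      intro p
      funext x
      unfold pat
      show p (x - ((2 * R + 1 : ℕ) : ℤ) • z + v₀) = p (x - (((2 * R + 1 : ℕ) : ℤ) • z - v₀))
      rw [sub_add]
    rw [e1, e2 a, e2 b]
    exact h1
  · intro i
    rw [Finset.sum_image fun x _ y _ h => sub_left_injective h,
      Finset.sum_image fun x _ y _ h => sub_left_injective h]
    simp only [sub_add_cancel]
    exact hc i
  · rw [VPG.real_tr m hm.map F a v₀, VPG.real_tr m hm.map F b v₀]
    exact hne

theorem vp_inv (C : Set (V d → A)) (hC : ClosedC C) (hS : ShiftC C) {k : ℕ}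
    (c : A → Fin k → ℝ) (m : Measure (V d → A)) (hm : Inv C m)
    (hmax : ∀ ν, Inv C ν → mean c ν = mean c m → hent ν ≤ hent m) (F : Finset (V d))
    (a b : V d → A)
    (hcl : ∀ v : V d, ∀ ω ∈ C,
      pswap (tr F v) (fun x => a (x - v)) (fun x => b (x - v)) ω ∈ C)
    (hc : ∀ i, ∑ x ∈ F, c (a x) i = ∑ x ∈ F, c (b x) i) :
    m.map (pswap F a b) = m := by
  have := hm.prob
  have hmp : Measurable (pswap F a b) := measurable_pswap F a b
  have : IsProbabilityMeasure (m.map (pswap F a b)) :=
    Measure.isProbabilityMeasure_map hmp.aemeasurable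
  -- the comparison on a large window
  have key : ∀ (G : Finset (V d)), F ⊆ G → ∀ η : V d → A,
      m.real {ω | ∀ x ∈ G, ω x = pswap F a b η x} = m.real {ω | ∀ x ∈ G, ω x = η x} := by
    intro G hFG η
    by_contra hne
    suffices H : ∃ ν, Inv C ν ∧ mean c ν = mean c m ∧ hent m < hent ν by
      obtain ⟨ν, h1, h2, h3⟩ := H
      exact absurd h3 (not_lt.mpr (hmax ν h1 h2))
    refine vp_gain C hC hS c m hm G (pswap F a b η) η ?_ ?_ hne
    · intro v ω hω
      by_cases h1 : ∀ x ∈ G, shift v ω x = pswap F a b η x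
      · have e : pswap (tr G v) (fun x => pswap F a b η (x - v)) (fun x => η (x - v)) ω =
            pswap (tr F v) (fun x => a (x - v)) (fun x => b (x - v)) ω := by
          funext x
          rw [VPG.pswap_tr, VPG.pswap_tr]
          by_cases hx : x - v ∈ G
          · rw [VPG.pswap_congr F G hFG a b _ _ h1 _ hx, pswap_invol]
            exact VPG.pswap_a G _ _ _ h1 _ hx
          · rw [VPG.pswap_off G _ _ _ _ hx, VPG.pswap_off F _ _ _ _ fun h => hx (hFG h)]
        rw [e]
        exact hcl v ω hω
      · by_cases h2 : ∀ x ∈ G, shift v ω x = η x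
        · have e : pswap (tr G v) (fun x => pswap F a b η (x - v)) (fun x => η (x - v)) ω =
              pswap (tr F v) (fun x => a (x - v)) (fun x => b (x - v)) ω := by
            funext x
            rw [VPG.pswap_tr, VPG.pswap_tr]
            by_cases hx : x - v ∈ G
            · rw [VPG.pswap_congr F G hFG a b _ _ h2 _ hx]
              exact VPG.pswap_b G _ _ _ h1 h2 _ hx
            · rw [VPG.pswap_off G _ _ _ _ hx, VPG.pswap_off F _ _ _ _ fun h => hx (hFG h)]
          rw [e]
          exact hcl v ω hω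
        · have e : pswap (tr G v) (fun x => pswap F a b η (x - v)) (fun x => η (x - v)) ω = ω := by
            funext x
            rw [VPG.pswap_tr, VPG.pswap_n G _ _ _ h1 h2]
            unfold shift
            rw [sub_add_cancel]
          rw [e]
          exact hω
    · intro i
      rw [← Finset.sum_sdiff hFG, ← Finset.sum_sdiff hFG]
      congr 1
      · exact Finset.sum_congr rfl fun x hx => by
          rw [VPG.pswap_off F a b η x (Finset.mem_sdiff.mp hx).2]
      · by_cases h1 : ∀ x ∈ F, η x = a x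
        · have e : ∀ x ∈ F, pswap F a b η x = b x := VPG.pswap_a F a b η h1
          calc ∑ x ∈ F, c (pswap F a b η x) i = ∑ x ∈ F, c (b x) i :=
                Finset.sum_congr rfl fun x hx => by rw [e x hx]
            _ = ∑ x ∈ F, c (a x) i := (hc i).symm
            _ = ∑ x ∈ F, c (η x) i := Finset.sum_congr rfl fun x hx => by rw [h1 x hx]
        · by_cases h2 : ∀ x ∈ F, η x = b x
          · have e : ∀ x ∈ F, pswap F a b η x = a x := VPG.pswap_b F a b η h1 h2
            calc ∑ x ∈ F, c (pswap F a b η x) i = ∑ x ∈ F, c (a x) i :=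
                  Finset.sum_congr rfl fun x hx => by rw [e x hx]
              _ = ∑ x ∈ F, c (b x) i := hc i
              _ = ∑ x ∈ F, c (η x) i := Finset.sum_congr rfl fun x hx => by rw [h2 x hx]
          · rw [VPG.pswap_n F a b η h1 h2]
  have hev : ∃ ω₀ : V d → A, True := by
    by_contra h
    push Not at h
    have : (Set.univ : Set (V d → A)) = ∅ := by
      ext ω
      exact ⟨fun _ => (h ω).elim, fun h => h.elim⟩
    have h1 : m Set.univ = 1 := measure_univ
    rw [this, measure_empty] at h1
    exact zero_ne_one h1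
  obtain ⟨ω₀, -⟩ := hev
  -- the laws of the patterns on a large window agree
  have key2 : ∀ (G : Finset (V d)), F ⊆ G →
      (m.map (pswap F a b)).map (G.restrict (π := fun _ : V d => A)) =
        m.map (G.restrict (π := fun _ : V d => A)) := by
    classical
    intro G hFG
    have hr : Measurable (G.restrict (π := fun _ : V d => A)) := Finset.measurable_restrict G
    have : IsProbabilityMeasure ((m.map (pswap F a b)).map (G.restrict (π := fun _ : V d => A))) :=
      Measure.isProbabilityMeasure_map hr.aemeasurable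
    have : IsProbabilityMeasure (m.map (G.restrict (π := fun _ : V d => A))) :=
      Measure.isProbabilityMeasure_map hr.aemeasurable
    rw [Measure.ext_iff_singleton]
    intro ξ
    rw [Measure.map_apply hr (measurableSet_singleton ξ),
      Measure.map_apply hr (measurableSet_singleton ξ)]
    have h2 : (G.restrict (π := fun _ : V d => A)) ⁻¹' {ξ} =
        {ω | ∀ x ∈ G, ω x = (fun y => if h : y ∈ G then ξ ⟨y, h⟩ else ω₀ y) x} := by
      ext ω
      simp only [Set.mem_preimage, Set.mem_singleton_iff, Set.mem_ofPred_eq, funext_iff,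
        Finset.restrict]
      constructor
      · intro h x hx
        rw [dif_pos hx]
        exact h ⟨x, hx⟩
      · intro h x
        have := h x.1 x.2
        rw [dif_pos x.2] at this
        exact this
    rw [h2]
    set η : V d → A := fun y => if h : y ∈ G then ξ ⟨y, h⟩ else ω₀ y
    rw [Measure.map_apply hmp (VPG.meas_cylS G η)]
    have h3 : pswap F a b ⁻¹' {ω | ∀ x ∈ G, ω x = η x} =
        {ω | ∀ x ∈ G, ω x = pswap F a b η x} := by
      ext ω
      simp only [Set.mem_preimage, Set.mem_ofPred_eq]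
      constructor
      · intro h x hx
        have := VPG.pswap_congr F G hFG a b _ _ h x hx
        rwa [pswap_invol] at this
      · intro h x hx
        have := VPG.pswap_congr F G hFG a b _ _ h x hx
        rwa [pswap_invol] at this
    rw [h3]
    have h4 := key G hFG η
    rwa [measureReal_def, measureReal_def, ENNReal.toReal_eq_toReal_iff' (measure_ne_top _ _)
      (measure_ne_top _ _)] at h4
  refine cyl_ext _ _ fun G₀ ξ => ?_
  classical
  have h1 := key2 (G₀ ∪ F) Finset.subset_union_right
  have hr : Measurable ((G₀ ∪ F).restrict (π := fun _ : V d => A)) :=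
    Finset.measurable_restrict _
  have h2 : {ω : V d → A | ∀ x : G₀, ω x = ξ x} =
      ((G₀ ∪ F).restrict (π := fun _ : V d => A)) ⁻¹'
        {p | ∀ x : G₀, p ⟨x.1, Finset.mem_union_left _ x.2⟩ = ξ x} := by
    ext ω
    simp only [Set.mem_preimage, Set.mem_ofPred_eq, Finset.restrict]
  have hms : MeasurableSet {p : (x : ↥(G₀ ∪ F)) → A |
      ∀ x : G₀, p ⟨x.1, Finset.mem_union_left _ x.2⟩ = ξ x} := Set.Finite.measurableSet
        (Set.toFinite _)
  rw [h2, measureReal_def, measureReal_def, ← Measure.map_apply hr hms,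
    ← Measure.map_apply hr hms, h1]

end Helper15.DE
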